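import Pool.Agent.Helper89.ME.CatDefs

/-!
# ME-C1a: prefixes, cylinders, first difference
-/

set_option autoImplicit false

namespace ME

open Encodable Set Filter Topology

section pre

@[simp] theorem length_pre (y : ℕ → Bool) (n : ℕ) : (pre y n).length = n := by
  simp [pre]

theorem pre_getElem (y : ℕ → Bool) (n i : ℕ) (h : i < (pre y n).length) :
    (pre y n)[i] = y i := by
  simp [pre]

theorem pre_eq_iff {x y : ℕ → Bool} {n : ℕ} : pre x n = pre y n ↔ ∀ i < n, x i = y i := by
  constructor
  · intro h i hi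
    have h1 : (pre x n)[i]? = (pre y n)[i]? := by rw [h]
    rw [List.getElem?_eq_getElem (by rw [length_pre]; exact hi),
      List.getElem?_eq_getElem (by rw [length_pre]; exact hi), pre_getElem, pre_getElem] at h1
    exact Option.some.inj h1
  · intro h
    refine List.ext_getElem (by simp) fun i h1 h2 => ?_
    rw [pre_getElem, pre_getElem]
    exact h i (by simpa using h1)

theorem take_pre (y : ℕ → Bool) (m n : ℕ) (h : m ≤ n) : (pre y n).take m = pre y m := by
  refine List.ext_getElem (by simp [h]) fun i h1 h2 => ?_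
  rw [List.getElem_take, pre_getElem, pre_getElem]

theorem pre_prefix (y : ℕ → Bool) {m n : ℕ} (h : m ≤ n) : pre y m <+: pre y n := by
  rw [← take_pre y m n h]
  exact List.take_prefix _ _

theorem mem_cyl_iff {s : List Bool} {y : ℕ → Bool} : y ∈ cyl s ↔ s <+: pre y s.length := by
  constructor
  · intro h
    have h' : pre y s.length = s := h
    rw [h']
  · intro h
    exact (h.eq_of_length (by simp)).symm

theorem mem_cyl_iff_exists {s : List Bool} {y : ℕ → Bool} : y ∈ cyl s ↔ ∃ n, s = pre y n := by
  constructor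
  · intro h
    exact ⟨s.length, (show pre y s.length = s from h).symm⟩
  · rintro ⟨n, rfl⟩
    show pre y (pre y n).length = pre y n
    rw [length_pre]

theorem cyl_anti {s t : List Bool} (h : s <+: t) : cyl t ⊆ cyl s := by
  intro y hy
  have hy' : pre y t.length = t := hy
  show pre y s.length = s
  rw [← take_pre y s.length t.length h.length_le, hy']
  exact (List.prefix_iff_eq_take.1 h).symm

theorem cyl_eq (s : List Bool) : cyl s = ⋂ i : Fin s.length, {y : ℕ → Bool | y i = s[i]} := by
  ext y
  rw [Set.mem_iInter]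
  constructor
  · intro h i
    have h' : pre y s.length = s := h
    show y i = s[i]
    have h1 : (pre y s.length)[(i : ℕ)]'(by simp) = s[(i : ℕ)] := by
      simp only [h']
    rw [pre_getElem] at h1
    exact h1
  · intro h
    show pre y s.length = s
    refine List.ext_getElem (by simp) fun i h1 h2 => ?_
    rw [pre_getElem]
    exact h ⟨i, h2⟩

theorem isOpen_cyl (s : List Bool) : IsOpen (cyl s) := by
  rw [cyl_eq]
  refine isOpen_iInter_of_finite fun i => ?_
  have hc : Continuous (fun y : ℕ → Bool => y i) := continuous_apply (i : ℕ)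
  exact (isOpen_discrete ({s[i]} : Set Bool)).preimage hc

theorem isClosed_cyl (s : List Bool) : IsClosed (cyl s) := by
  rw [cyl_eq]
  refine isClosed_iInter fun i => ?_
  have hc : Continuous (fun y : ℕ → Bool => y i) := continuous_apply (i : ℕ)
  exact (isClosed_discrete ({s[i]} : Set Bool)).preimage hc

theorem cyl_nonempty (s : List Bool) : (cyl s).Nonempty := by
  refine ⟨fun n => s.getD n false, ?_⟩
  show pre _ s.length = s
  refine List.ext_getElem (by simp) fun i h1 h2 => ?_
  rw [pre_getElem]
  simp [List.getD, List.getElem?_eq_getElem h2]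

theorem exists_cyl_of_isOpen {U : Set (ℕ → Bool)} (hU : IsOpen U) {y : ℕ → Bool} (hy : y ∈ U) :
    ∃ n, cyl (pre y n) ⊆ U := by
  obtain ⟨I, u, hu, hsub⟩ := isOpen_pi_iff.1 hU y hy
  refine ⟨I.sup id + 1, fun z hz => hsub ?_⟩
  have hz' : pre z (pre y (I.sup id + 1)).length = pre y (I.sup id + 1) := hz
  rw [length_pre, pre_eq_iff] at hz'
  intro i hi
  have h1 : i < I.sup id + 1 := Nat.lt_succ_of_le (Finset.le_sup (f := id) hi)
  rw [hz' i h1]
  exact (hu i hi).2

theorem pre_apply_of_prefix {s : List Bool} {y : ℕ → Bool} (h : y ∈ cyl s) {n : ℕ}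
    (hn : n ≤ s.length) : pre y n = s.take n := by
  have h' : pre y s.length = s := h
  rw [← take_pre y n s.length hn, h']

theorem fd_comm (x y : ℕ → Bool) : fd x y = fd y x :=
  PiNat.firstDiff_comm (E := fun _ => Bool) x y

theorem fd_ne {x y : ℕ → Bool} (h : x ≠ y) : x (fd x y) ≠ y (fd x y) :=
  PiNat.apply_firstDiff_ne (E := fun _ => Bool) h

theorem fd_eq_of_lt {x y : ℕ → Bool} {n : ℕ} (h : n < fd x y) : x n = y n :=
  PiNat.apply_eq_of_lt_firstDiff (E := fun _ => Bool) h

theorem fd_unique {x y : ℕ → Bool} {n : ℕ} (h1 : ∀ i < n, x i = y i) (h2 : x n ≠ y n) :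
    fd x y = n := by
  have hne : x ≠ y := fun h => h2 (by rw [h])
  rcases lt_trichotomy (fd x y) n with h | h | h
  · exact absurd (h1 _ h) (fd_ne hne)
  · exact h
  · exact absurd (fd_eq_of_lt h) h2

theorem le_fd {x y : ℕ → Bool} {n : ℕ} (hne : x ≠ y) (h1 : ∀ i < n, x i = y i) : n ≤ fd x y := by
  by_contra h
  exact fd_ne hne (h1 _ (not_le.1 h))

end pre

end ME
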